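import Pool.Agent.Helper56.MMD.Defs
import Pool.Agent.Helper56.MW.P4
import Pool.Agent.Helper56.MW.Q

/-!
# The definitions of `MMD.Defs` and those of the library agree
-/

open FirstOrder FirstOrder.Language Ordinal Cardinal

universe u v

namespace Pool.Agent.Helper56.MMD

theorem clubIn_iff {C : Set Ordinal.{u}} {o : Ordinal.{u}} :
    ClubIn C o ↔ Helper23.Pcf.ClubIn C o :=
  ⟨fun h => ⟨h.1, h.2⟩, fun h => ⟨h.unb, h.cl⟩⟩

theorem statIn_iff {S : Set Ordinal.{u}} {o : Ordinal.{u}} :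
    StatIn S o ↔ Helper23.Pcf.StatIn S o :=
  ⟨fun h C hC => h C (clubIn_iff.2 hC), fun h C hC => h C (clubIn_iff.1 hC)⟩

theorem forcesClub_iff {P : Type v} [Preorder P] {p : P} {N : P → Ordinal.{u} → Prop} :
    ForcesClub p N ↔ MW.ForcesClub p N :=
  ⟨fun h => ⟨h.1, h.2.1, h.2.2⟩, fun h => ⟨h.mono, h.unbounded, h.closed⟩⟩

theorem preservesStat_iff {P : Type v} [Preorder P] :
    PreservesStat.{u} P ↔ MW.PreservesStat.{u} P :=
  ⟨fun h S hS p N hN => h S (statIn_iff.2 hS) p N (forcesClub_iff.2 hN),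
    fun h S hS p N hN => h S (statIn_iff.1 hS) p N (forcesClub_iff.1 hN)⟩

theorem mm_imp (h : MM.{u}) : MW.MM.{u} := by
  intro P _ _ hP D hD
  obtain ⟨G, h1, h2, h3⟩ := h P (preservesStat_iff.2 hP) D hD
  exact ⟨G, h1, h2, h3⟩

theorem splits_iff {κ : Cardinal.{u}} {s : ZFSet.{u}} : Splits κ s ↔ MW.Splits κ s :=
  and_congr statIn_iff statIn_iff

end Pool.Agent.Helper56.MMD
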