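import Pool.Agent.Helper56.MW.Base

/-!
# Martin's Maximum, ordinal definability, definable well-orders of the reals: definitions

The universe of sets is `ZFSet`, a structure for the language of set theory `LSet` (one binary
relation symbol, read as true membership).  Ordinals are read as von Neumann ordinals
(`Ordinal.toZFSet`), and a real is a subset of `ω`.
-/

open FirstOrder FirstOrder.Language Ordinal Cardinal

universe u v

namespace Pool.Agent.Helper56.MMD

open Pool.Agent.Helper56.MW (LSet)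

/-- The set `C` is unbounded in the ordinal `o`, and it contains every `δ < o`, `0 < δ`, in which
it is unbounded. -/
def ClubIn (C : Set Ordinal.{u}) (o : Ordinal.{u}) : Prop :=
  (∀ x < o, ∃ y ∈ C, x < y ∧ y < o) ∧
    ∀ δ < o, 0 < δ → (∀ x < δ, ∃ y ∈ C, x < y ∧ y < δ) → δ ∈ C

/-- The set `S` is stationary in `o`. -/
def StatIn (S : Set Ordinal.{u}) (o : Ordinal.{u}) : Prop :=
  ∀ C, ClubIn C o → ∃ x ∈ S, x ∈ C ∧ x < o

/-- `N` is a name for a subset of `ω₁` (`N q α` says that the condition `q` puts `α` into the set),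
and the condition `p` forces that this set is closed and unbounded in `ω₁`. -/
def ForcesClub {P : Type v} [Preorder P] (p : P) (N : P → Ordinal.{u} → Prop) : Prop :=
  (∀ q r α, q ≤ r → N r α → N q α) ∧
    (∀ q ≤ p, ∀ α < ω_ 1, ∃ r ≤ q, ∃ β < ω_ 1, α < β ∧ N r β) ∧
    ∀ q ≤ p, ∀ δ < ω_ 1, 0 < δ →
      (∀ α < δ, ∀ r ≤ q, ∃ s ≤ r, ∃ β < δ, α < β ∧ N s β) → ∀ r ≤ q, ∃ s ≤ r, N s δ

/-- The forcing notion `P` preserves stationary subsets of `ω₁`: for each stationary `S`, no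
condition forces that a closed unbounded set avoids `S`. -/
def PreservesStat (P : Type v) [Preorder P] : Prop :=
  ∀ S : Set Ordinal.{u}, StatIn S (ω_ 1) → ∀ (p : P) (N : P → Ordinal.{u} → Prop),
    ForcesClub p N → ∃ q ≤ p, ∃ α ∈ S, α < ω_ 1 ∧ N q α

/-- `G` is a filter meeting the sets `D i`, `i < ω₁`. -/
def GenericFor {P : Type v} [Preorder P] (D : Ordinal.{u} → Set P) (G : Set P) : Prop :=
  (∀ p ∈ G, ∀ q, p ≤ q → q ∈ G) ∧ (∀ p ∈ G, ∀ q ∈ G, ∃ r ∈ G, r ≤ p ∧ r ≤ q) ∧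
    ∀ i < ω_ 1, ∃ p ∈ G, p ∈ D i

/-- Martin's Maximum. -/
def MM : Prop :=
  ∀ (P : Type u) [Preorder P] [Nonempty P], PreservesStat.{u} P →
    ∀ D : Ordinal.{u} → Set P, (∀ i < ω_ 1, ∀ p, ∃ q ≤ p, q ∈ D i) → ∃ G, GenericFor D G

/-- The set `x` is definable in the universe from `A` and finitely many ordinals. -/
def OrdDef (A x : ZFSet.{u}) : Prop :=
  ∃ (n : ℕ) (φ : LSet.Formula (Fin n ⊕ Fin 2)) (a : Fin n → Ordinal.{u}),
    ∀ y, φ.Realize (Sum.elim (fun i => (a i).toZFSet) ![A, y]) ↔ y = x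

/-- Some formula without parameters defines a well-order of the set of all subsets of `ω`. -/
def HasDefWO : Prop :=
  ∃ φ : LSet.Formula (Fin 2), IsWellOrder {x : ZFSet.{u} // x ⊆ (ω : Ordinal.{u}).toZFSet}
    (fun x y => φ.Realize ![(x : ZFSet.{u}), (y : ZFSet.{u})])

/-- The set `s` splits the points of countable cofinality below the cardinal `κ` into two
stationary sets. -/
def Splits (κ : Cardinal.{u}) (s : ZFSet.{u}) : Prop :=
  StatIn {γ | γ.cof = ℵ₀ ∧ γ.toZFSet ∈ s} κ.ord ∧ StatIn {γ | γ.cof = ℵ₀ ∧ γ.toZFSet ∉ s} κ.ord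

/-- Every ordinal below `l⁺` is the image of `l` under a (possibly not everywhere defined) map
which is definable from `A` and finitely many ordinals. -/
def SuccCorrectOver (A : ZFSet.{u}) (l : Cardinal.{u}) : Prop :=
  ∀ α < (Order.succ l).ord, ∃ f : ZFSet.{u}, OrdDef A f ∧
    (∀ ξ < α, ∃ i < l.ord, ZFSet.pair i.toZFSet ξ.toZFSet ∈ f) ∧
    ∀ i < l.ord, ∀ ξ < α, ∀ ξ' < α, ZFSet.pair i.toZFSet ξ.toZFSet ∈ f →
      ZFSet.pair i.toZFSet ξ'.toZFSet ∈ f → ξ = ξ'

end Pool.Agent.Helper56.MMD
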